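import Pool.Agent.Q36.HV.T

/-!
# Fujita's conjectures for Bagnera-de Franchis manifolds

Let `X = V / Γ` be the quotient of a complex torus of any dimension by a finite group which acts
freely: `Γ` is a group of affine transformations of the complex vector space `V` which acts freely,
with a full lattice of translations and with a finite set `parts Γ` of linear parts, which form the
holonomy group. If it is cyclic, `X` is a Bagnera-de Franchis manifold (or a torus). We consider the
adjoint line bundles `K_X + A_1 + ... + A_k`, where `A_1, ..., A_k` are ample line bundles on `X` which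
may be different. (Fujita's conjectures are about the case `A_1 = ... = A_k = A`, `k = dim X + 1` or
`k = dim X + 2`.)

Let `V_0 = V ⊇ V_1 ⊇ ...` be the subspaces `V_{i+1} = fibreSpace Γ V_i`, the span of the vectors
`g w - w` for all linear parts `g` of the group `Γ_i` of all `γ ∈ Γ` with `γ(0) ∈ V_i`. Then
`X_i = V_i / Γ_i` is a submanifold of `X = X_0` (the image of `V_i`), and `X_{i+1}` is the fibre of the
Albanese map of `X_i`. The condition `V_{ℓ+1} = 0` says that the linear parts of `Γ_ℓ` are trivial,
that is, the `ℓ`-th iterated Albanese fibre `X_ℓ` is a complex torus.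

(1) Let the holonomy group be abelian, and let `X_ℓ` be a complex torus. Then
`K_X + A_1 + ... + A_k` is globally generated for `k ≥ ℓ + 2` and very ample for `k ≥ ℓ + 3`, for all
ample line bundles `A_1, ..., A_k` on `X`. This also holds for `k ≥ dim X + 1` and `k ≥ dim X + 2`: if
there is such an `ℓ` then one may take `ℓ = dim X - 1`.

(2) If the holonomy group is cyclic then this holds for the number `ℓ` of the prime factors of its
order (with multiplicities), and for `k ≥ dim X + 1` and `k ≥ dim X + 2`. So both conjectures of Fujita
hold for all Bagnera-de Franchis manifolds.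

In both cases `K_X` can be replaced by any line bundle with first Chern form zero, and if `Y → X` is a
toric bundle, with a smooth complete toric variety of dimension `n` as fibre, and twisted by arbitrary
line bundles on `X`, then `K_Y + L_1 + ... + L_k` is globally generated (very ample) for all ample line
bundles `L_1, ..., L_k` on `Y` if moreover `k ≥ n + 1` (`k ≥ n + 2`).

The proof. Let `Γ'` be the group generated by `Γ_1` and the translations of `Γ`; it is normal in `Γ`
and `Γ / Γ'` is a finite abelian group. By induction the theorem holds for `Γ'` and `ℓ - 1`. Let `S` be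
the sum of the linear parts; the image of `S` is the space of the invariant vectors, and the cosets of
it are the leaves. If `Q` is a factor of automorphy on `Γ` with positive Chern form, and `ψ` runs
through the characters of `Γ` which are trivial on the lattice and are given by invariant vectors
`S x`, then the sections of all `Q ψ` generate the sections of `Q` on `Γ'` (this uses the duality of
lattices), and the sections of `Q ψ` are translates of the sections of `Q` along the leaves. So if `Q`
is globally generated on `Γ'` then on each leaf some section on `Γ` does not vanish. Similarly, if `Q`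
is globally generated on `Γ` and very ample on `Γ'` then for points `z, z'` which are not equivalent
the sections of `Q` separate some translates `z + S v`, `z' + S v`: otherwise the quotient of the
values of the sections is an entire function of `v` which is exponential by a theorem of Liouville
type. Now let `e = e_1 e_2` on `Γ`, where `e_2` has a positive Chern form `H_2` and `e_1` has the
property above, also after the twist with any character of the abelian holonomy group `G`. Then for
generic `a` the theta functions of `e_1` separate the points `g z + a`, `g ∈ G` (or the points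
`g z + a`, `g z' + a`). Let `s` be a theta function of `e_2`, and `φ` the linear map with
`H_2(φ a, ·) = H_1(a, ·)`. If all sections of `e` vanish at `z` then the averages over `G` of
`h(z + a) s(z - φ a)`, `h` a theta function of `e_1`, vanish at `z`; this is a linear system for the
entire functions `a ↦ s(g z - φ a)` with invertible matrix, hence `s = 0`. The beginning of the
induction is the theorem of Lefschetz for products of two or three ample line bundles on a torus.

Definitions. `Aff`, `pt`, `lp`, `shift`, `parts`, `IsFreeQuotient`, `quo`, `HasChern`, `fibreSpace`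
are in `Pool.Agent.Q36.HV.S`, `IsHermitian` in `Pool.Agent.W594.SYZ.TQDefs`; `Atlas`, `LB`, `GG`, `VA`,
`IsAmple`, `GGY`, `VAY`, `AmpleY` in `Pool.Agent.Q47.FJ.Defs`; `IsCanonical`, `IsCanonicalY` in
`Pool.Agent.Q47.FJ.DefsT`; `IsSmoothFan` in `Pool.Agent.Q47.TB.Defs`.
-/

set_option autoImplicit false

namespace Pool.Agent.Results.MP_9ff3e7_ag.BagneraDeFranchis

open Pool.Agent.W594.SYZ2 Pool.Agent.W594.SYZ2.TQ Q47.FJ Q47.TB Q36.HV

/-- For all line bundles `N` on the complex manifold `X` with the property `P` and all ample line
bundles `A_1, ..., A_k` with the property `C`, `N + A_1 + ... + A_k` is globally generated if `k ≥ a`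
and very ample if `k ≥ b`. -/
def BoundsX {E I K : Type} [NormedAddCommGroup E] [NormedSpace ℂ E] (X : Atlas E I K)
    (P C : LB X → Prop) (a b : ℕ) : Prop :=
  ∀ N : LB X, P N → ∀ (k : ℕ) (A : Fin k → LB X), (∀ j, C (A j) ∧ IsAmple (A j)) →
    (a ≤ k → GG (N * ∏ j, A j)) ∧ (b ≤ k → VA (N * ∏ j, A j))

/-- For all toric bundles `Y → X` with a smooth complete fan `u`, `S` of dimension `n`, given by line
bundles `c_i` on `X` with the property `C`, and all ample line bundles `L_j = O_Y(d_j; M_j)` on `Y`,
`M_j` with the property `C`, `K_Y + L_1 + ... + L_k` is globally generated if `k ≥ max(a, n + 1)` and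
very ample if `k ≥ max(b, n + 2)`. -/
def BoundsY {E I K : Type} [NormedAddCommGroup E] [NormedSpace ℂ E] (X : Atlas E I K)
    (C : LB X → Prop) (a b : ℕ) : Prop :=
  ∀ (ι : Type) [Fintype ι] (n : ℕ) (u : ι → Fin n → ℤ) (S : Set (Set ι)), IsSmoothFan u S →
    ∀ c : ι → LB X, (∀ i, C (c i)) → ∀ N : LB X, IsCanonicalY c N →
    ∀ (k : ℕ) (d : Fin k → ι → ℤ) (M : Fin k → LB X),
      (∀ j, C (M j) ∧ AmpleY u S c (d j) (M j)) →
      (n + 1 ≤ k → a ≤ k → GGY u S c (fun i => ∑ j, d j i - 1) (N * ∏ j, M j)) ∧
      (n + 2 ≤ k → b ≤ k → VAY u S c (fun i => ∑ j, d j i - 1) (N * ∏ j, M j))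

/-- For all ample line bundles `A_1, ..., A_k` on `X = V / Γ`, `K_X + A_1 + ... + A_k` is globally
generated if `k ≥ a` and very ample if `k ≥ b`, also with any line bundle with Chern form zero instead
of `K_X`; and for all toric bundles `Y → X`, of any fibre dimension `n`, and all ample line bundles
`L_1, ..., L_k` on `Y`, `K_Y + L_1 + ... + L_k` is globally generated if `k ≥ max(a, n + 1)` and very
ample if `k ≥ max(b, n + 2)`. -/
def Bounds {V : Type} [NormedAddCommGroup V] [NormedSpace ℂ V] [FiniteDimensional ℂ V]
    (Γ : Subgroup (Aff V)) (a b : ℕ) : Prop :=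
  BoundsX (quo Γ) (fun N => IsCanonical N ∨ HasChern N fun _ _ => 0)
    (fun A => ∃ H, HasChern A H) a b ∧
  BoundsY (quo Γ) (fun A => ∃ H, HasChern A H) a b

theorem bounds {V : Type} [NormedAddCommGroup V] [NormedSpace ℂ V] [FiniteDimensional ℂ V]
    {Γ : Subgroup (Aff V)} (hΓ : IsTorusQuotient (toS Γ)) (hc : Comm (toS Γ)) {ℓ : ℕ}
    (ht : AreTranslations (alb^[ℓ] (toS Γ))) : Bounds Γ (ℓ + 2) (ℓ + 3) := by
  constructor
  · intro N hN k A hA
    have h0 : Q36.HV.IsChern (Γ := toS Γ) N fun _ _ => 0 := by
      rcases hN with h | h
      · exact canonical_q hΓ h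
      · exact h
    exact main_q hΓ hc ht h0 hA
  · intro ι _ n u S hS c hcc N hN k d M hM
    exact toric_q (Γ := toS Γ) hΓ hc ht hS hcc hN (fun j => (hM j).1) (fun j => (hM j).2)

/-- Let `X = V / Γ` be the quotient of a complex torus by a finite group which acts freely.

(1) Let the holonomy group be abelian, and let the `ℓ`-th iterated Albanese fibre of `X` be a complex
torus. Then for all ample `A_j` on `X`, `K_X + A_1 + ... + A_k` is globally generated for `k ≥ ℓ + 2`
and very ample for `k ≥ ℓ + 3`; and it is globally generated for `k ≥ dim X + 1` and very ample for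
`k ≥ dim X + 2`.

(2) Let the holonomy group be cyclic, and let `ℓ` be the number of the prime factors of its order,
with multiplicities. Then `K_X + A_1 + ... + A_k` is globally generated for `k ≥ ℓ + 2` and very ample
for `k ≥ ℓ + 3`; and it is globally generated for `k ≥ dim X + 1` and very ample for
`k ≥ dim X + 2`.

The same holds for toric bundles over `X` (see `Bounds`). -/
theorem result {V : Type} [NormedAddCommGroup V] [NormedSpace ℂ V] [FiniteDimensional ℂ V]
    (Γ : Subgroup (Aff V)) (hΓ : IsFreeQuotient Γ) :
    ((∀ A ∈ parts Γ, ∀ B ∈ parts Γ, A ∘ B = B ∘ A) →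
      ∀ ℓ : ℕ, (fibreSpace Γ)^[ℓ + 1] ⊤ = ⊥ →
        Bounds Γ (ℓ + 2) (ℓ + 3) ∧
        (1 ≤ Module.finrank ℂ V →
          Bounds Γ (Module.finrank ℂ V + 1) (Module.finrank ℂ V + 2))) ∧
    ((∃ γ₀ ∈ Γ, ∀ A ∈ parts Γ, ∃ n : ℕ, A = (lp γ₀)^[n]) →
      Bounds Γ ((parts Γ).ncard.primeFactorsList.length + 2)
        ((parts Γ).ncard.primeFactorsList.length + 3) ∧
      (1 ≤ Module.finrank ℂ V →
        Bounds Γ (Module.finrank ℂ V + 1) (Module.finrank ℂ V + 2))) := by
  have hT := torus_of hΓ
  have h1 : Comm (toS Γ) → ∀ ℓ : ℕ, AreTranslations (alb^[ℓ] (toS Γ)) →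
      Bounds Γ (ℓ + 2) (ℓ + 3) ∧ (1 ≤ Module.finrank ℂ V →
        Bounds Γ (Module.finrank ℂ V + 1) (Module.finrank ℂ V + 2)) := by
    intro hc ℓ hℓ
    refine ⟨bounds hT hc hℓ, fun hV => ?_⟩
    have h2 := bounds hT hc (dim_bound ⟨ℓ, hℓ⟩ hV)
    have h3 : Module.finrank ℂ V - 1 + 2 = Module.finrank ℂ V + 1 := by omega
    have h4 : Module.finrank ℂ V - 1 + 3 = Module.finrank ℂ V + 2 := by omega
    rw [h3, h4] at h2
    exact h2
  refine ⟨fun hc ℓ hℓ => h1 (comm_of hc) ℓ (trans_of hℓ), fun hcy => ?_⟩
  have hcy' := cyclic_of hcy
  rw [← card_parts]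
  exact h1 (comm_of_cyclic hcy') _ (cyc_bound _ (toS Γ) hT (free_of hΓ) hcy' le_rfl)

end Pool.Agent.Results.MP_9ff3e7_ag.BagneraDeFranchis
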