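import Pool.Agent.Q47.FF.Main
import Pool.Agent.Q47.FF.Rest

/-!
# Fujita's conjectures for flag bundles

Let `X` be a compact complex manifold, let `c_1, ..., c_q` be arbitrary line bundles on `X`, and let
`Y → X` be the bundle of the (partial or complete) flags of any given type in the fibres of the vector
bundle `c_1 ⊕ ... ⊕ c_q`. (For example the projective bundle, the Grassmann bundles, and the bundle of
complete flags, where `dim Y = dim X + q (q - 1) / 2`.) We consider the adjoint line bundles
`K_Y + L_1 + ... + L_k`, where `L_1, ..., L_k` are ample line bundles on `Y` which may be different.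
(Fujita's conjectures are about the case `L_1 = ... = L_k = A`, `k = dim Y + 1` or `k = dim Y + 2`.)

Part (1) of the theorem reduces the two conjectures to the base. Let `k ≥ q`. If for all ample line
bundles `A_1, ..., A_k` on `X` the line bundle `K_X + A_1 + ... + A_k` is globally generated, then for
all ample line bundles `L_1, ..., L_k` on `Y` the line bundle `K_Y + L_1 + ... + L_k` is globally
generated. Let `k ≥ q + 1`. If for all ample line bundles `A_1, ..., A_k` on `X` the line bundle
`K_X + A_1 + ... + A_k` is very ample, then for all ample line bundles `L_1, ..., L_k` on `Y` the line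
bundle `K_Y + L_1 + ... + L_k` is very ample. (Always `q ≤ dim Y - dim X + 1`, with equality for
projective bundles, unless all fibres of `Y → X` are points.) Instead of all line bundles on `X` one may
take those in a subgroup of `Pic(X)` which contains the `c_i`.

Part (2) is unconditional: if `X` is a complex torus (for example an abelian variety) of any dimension,
then for all ample line bundles `L_1, ..., L_k` on `Y` the line bundle `K_Y + L_1 + ... + L_k` is
globally generated if `k ≥ max(q, 2)` and very ample if `k ≥ max(q + 1, 3)`. In particular both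
conjectures of Fujita hold for `Y`. The bounds depend neither on `dim X` nor on the type of the flags.

The proof of (1). A line bundle on `Y` is of the form `O_Y(d; M)`, where `d` is a weight and `M` is a
line bundle on `X`; its sections are the polynomials in the entries of a `q × q` matrix `g` with
coefficients in the local sections of `M` which are semi-invariant of the weight `d` under the
parabolic group `P` and transform correctly. For a permutation `w` of the rows let `σ_w` be the section
of `Y → X` given by the permutation matrix. If `L = O_Y(d; M)` is ample then its restrictions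
`M ⊗ ∏ c_{w(i)}^{- d(b(i))}` to the `σ_w` are ample, and `d` decreases strictly from block to block
(tangent vectors at the permutation matrices, and Liouville's theorem). For an involution `π` of the
indices the line bundle on `X` given by the weight `l_i = d(b(i))` shifted by the root `e_i - e_{π i}`
for all pairs `i, π i` with `b(i) < b(π i)` is a rational convex combination of ample line bundles, thus
ample. The pairs of indices can be coloured by `q` colours such that each colour is an involution
(`i ↦ c - i` modulo `q`); so the line bundle on `X` given by the weight of `K_Y + L_1 + ... + L_k`,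
`k ≥ q`, and the permutation `w` is `K_X` plus a sum of `k` ample line bundles. Its sections, times a
product of powers of the minors of the rows `w(1), ..., w(n)` and the first `n` columns, are sections of
`K_Y + ∑ L_j`, and for each point `g` there is a `w` such that these minors do not vanish at `g`.
If `k ≥ q + 1` then one `L_j` is not shifted; shifting it by one root gives the sections in which one
minor is replaced by that in which the row `w(j)` is replaced by `w(i)`. The quotients of these minors
are the coordinates of the big cell, so that these sections separate the points and the tangent vectors.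

The proof of (2). The theorem of Lefschetz, for products of different ample line bundles, is proved in
`Pool.Agent.Q47.FJ`.

Definitions. `Atlas`, `LB`, `GG`, `VA`, `IsAmple` (line bundles on complex manifolds) are in
`Pool.Agent.Q47.FJ.Defs`; `IsCanonical` (`K_X`), `torus` and `IsChern` are in `Pool.Agent.Q47.FJ.DefsT`;
`IsSecF`, `GGF`, `VAF`, `AmpleF` (line bundles `O_Y(d; M)` on flag bundles) and `IsAdjoint` are in
`Pool.Agent.Q47.FF.Defs`; `IsSemiInvariant`, `ev` and `anti` are in `Pool.Agent.Q47.FL.Defs`;
`IsHermitian` is in `Pool.Agent.W594.SYZ.TQDefs`. The weights `d` are natural numbers, since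
`O_Y(d + 1; M) = O_Y(d; M ⊗ ∏ c_i ^ (-1))` (multiplication with the determinant); for `d ≥ 0` all
sections over the open sets of `X` are given by polynomials if `d` is weakly decreasing.
-/

set_option autoImplicit false

namespace Pool.Agent.Results.MP_9ff3e7_ag.FlagBundles

open Q47.FJ Q47.FF

/-- For all ample line bundles `A_1, ..., A_k` in `Pic` on `X`, `K_X + A_1 + ... + A_k` is globally
generated. -/
def AdjointsAreGG {E I K : Type} [NormedAddCommGroup E] [NormedSpace ℂ E] (X : Atlas E I K)
    (Pic : Subgroup (LB X)) (k : ℕ) : Prop :=
  ∀ κ : LB X, IsCanonical κ → ∀ A : Fin k → LB X, (∀ j, A j ∈ Pic ∧ IsAmple (A j)) →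
    GG (κ * ∏ j, A j)

/-- For all ample line bundles `A_1, ..., A_k` in `Pic` on `X`, `K_X + A_1 + ... + A_k` is very
ample. -/
def AdjointsAreVA {E I K : Type} [NormedAddCommGroup E] [NormedSpace ℂ E] (X : Atlas E I K)
    (Pic : Subgroup (LB X)) (k : ℕ) : Prop :=
  ∀ κ : LB X, IsCanonical κ → ∀ A : Fin k → LB X, (∀ j, A j ∈ Pic ∧ IsAmple (A j)) →
    VA (κ * ∏ j, A j)

/-- Let the weakly increasing function `b : Fin q → ℕ` describe a type of flags in `ℂ^q`.

(1) Let `Y → X` be the bundle of the flags of this type in the fibres of the direct sum of the line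
bundles `c_i` on the nonempty complex manifold `X`, let `κ = K_X`, let `Pic` be a subgroup of the group
of the line bundles on `X` which contains the `c_i`, and let `L_j = O_Y(d_j; M_j)`, `j = 1, ..., k`, be
ample, `M_j ∈ Pic`. If `k ≥ q` then the weight `∑ d_j - anti` of `K_Y + L_1 + ... + L_k` is nonnegative,
`K_Y + L_1 + ... + L_k = O_Y(D; K_X ⊗ M_1 ⊗ ... ⊗ M_k)`.
(a) Let `k ≥ q`. If all adjoint line bundles `K_X + A_1 + ... + A_k`, `A_j ∈ Pic` ample, are
globally generated, then `K_Y + L_1 + ... + L_k` is globally generated.
(b) Let `k ≥ q + 1`. If all adjoint line bundles `K_X + A_1 + ... + A_k`, `A_j ∈ Pic` ample, are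
very ample, then `K_Y + L_1 + ... + L_k` is very ample.

(2) Let `Y → V / Λ` be the bundle of the flags of this type in the fibres of the direct sum of the line
bundles `c_i` on the complex torus `V / Λ`, let `κ` be the canonical line bundle of `V / Λ`, and let
`L_j = O_Y(d_j; M_j)`, `j = 1, ..., k`, be ample. (`c_i` and `M_j` have Chern forms.) Then
`K_Y + L_1 + ... + L_k` is globally generated if `k ≥ max(q, 2)`, and very ample if
`k ≥ max(q + 1, 3)`. -/
theorem result {q : ℕ} {b : Fin q → ℕ} (hb : Monotone b) :
    (∀ {E I K : Type} [NormedAddCommGroup E] [NormedSpace ℂ E]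
      (X : Atlas E I K), (∃ i, (X.U i).Nonempty) → ∀ (Pic : Subgroup (LB X)) (c : Fin q → LB X),
      (∀ i, c i ∈ Pic) → ∀ κ : LB X, IsCanonical κ →
      ∀ (k : ℕ) (d : Fin k → ℕ → ℕ) (M : Fin k → LB X), (∀ j, M j ∈ Pic) →
      (∀ j, AmpleF b c (d j) (M j)) → q ≤ k →
        (∃ D, IsAdjoint b d D) ∧ ∀ D, IsAdjoint b d D →
          (AdjointsAreGG X Pic k → GGF b c D (κ * ∏ j, M j)) ∧
          (q + 1 ≤ k → AdjointsAreVA X Pic k → VAF b c D (κ * ∏ j, M j))) ∧
    (∀ {V : Type} [NormedAddCommGroup V] [NormedSpace ℂ V] [FiniteDimensional ℂ V]
      (Λ : AddSubgroup V), DiscreteTopology Λ → Submodule.span ℝ (Λ : Set V) = ⊤ →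
      ∀ c : Fin q → LB (torus Λ), (∀ i, ∃ H, IsChern (c i) H) →
      ∀ κ : LB (torus Λ), IsCanonical κ →
      ∀ (k : ℕ) (d : Fin k → ℕ → ℕ) (M : Fin k → LB (torus Λ)), (∀ j, ∃ H, IsChern (M j) H) →
      (∀ j, AmpleF b c (d j) (M j)) → q ≤ k → 2 ≤ k →
        (∃ D, IsAdjoint b d D) ∧ ∀ D, IsAdjoint b d D →
          GGF b c D (κ * ∏ j, M j) ∧ (q + 1 ≤ k → 3 ≤ k → VAF b c D (κ * ∏ j, M j))) := by
  refine ⟨?_, ?_⟩
  · intro E I K _ _ X hne Pic c hc κ hκ k d M hM h hk
    obtain ⟨i₀, z₀, hz₀⟩ := hne
    exact ⟨adj_exists t_strict hb hk h hz₀, fun D hD =>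
      ⟨fun hX => gg_red t_strict t_match hb Pic hc hκ hk hM h hX hD,
        fun hk hX => va_red t_strict t_match t_lu t_tlu hb Pic hc hκ hk hM h hX hD⟩⟩
  · intro V _ _ _ Λ hd hs c hc κ hκ k d M hM h hk hk2
    exact ⟨adj_exists t_strict hb hk h (i₀ := ()) (Set.mem_univ (0 : V)), fun D hD =>
      ⟨gg_main t_strict t_match hd hs hb hc hκ hk hk2 hM h hD,
        fun hk hk3 => va_main t_strict t_match t_lu t_tlu hd hs hb hc hκ hk hk3 hM h hD⟩⟩

end Pool.Agent.Results.MP_9ff3e7_ag.FlagBundles
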