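import Pool.Agent.Q57.FJ.Main

/-!
# Fujita's freeness conjecture for toroidal models of covers of products of projective spaces

Let `F i` be a form of degree `d i` in `n i + 1` variables whose zero set in the projective
`n i`-space is a smooth hypersurface, `i = 1, ..., r`. Let `K` be the function field of an abelian
cover `Y` of the product of the projective `n i`-spaces which is branched along the hypersurfaces
`F i = 0` of the factors: `K` is generated by the affine coordinates and by roots `z j`,
`z j ^ (m j) = ∏ i, (F i (x i) / x i 0 ^ (d i)) ^ (a j i)`, where `m j` divides `a j i * d i`. The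
dimension of `Y` is `N = ∑ i, n i`; there is no condition on the dimensions `n i ≥ 1` and the degrees.

A prime divisor `P` over `Y` (a divisorial place of `K`) has the vector `multiplicities F d x P` of the
multiplicities `v i` of the hypersurfaces along `P`. The vectors `v ≠ 0` of nonnegative integers with
`m j ∣ ∑ i, a j i * v i` for all `j` are the `Admissible` ones: the nonzero points, in the positive
orthant, of the lattice of the toroidal variety `Y`.

**The varieties.** The toroidal modifications `X` of `Y` with quotient singularities are given by the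
simplicial subdivisions of the positive orthant; `fan` is the set of the maximal cones, each given by
its generators (`IsSimplicialFan`). If the generators of every cone are a basis of the lattice then
`X` is smooth; all smooth toroidal models, in particular all toroidal resolutions of `Y`, are of this
form. The boundary `Δ` is supported over the hypersurfaces, with coefficients in `[0, 1]`, and
`K_X + Δ` is Cartier (`IsLogPair`): `1 - ψ ρ` is the coefficient of `Δ` along the divisor of the
(primitive) generator `ρ` of a ray, the function `ψ` is linear on the cones and has integral values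
on the lattice. For smooth `X` and `Δ = 0` this is the function `ψ` which is linear on the cones, with
`ψ = 1` at the generators. The log discrepancy of the pair `(X, Δ)` along any prime divisor `P` over
`X` is `ψ v + logDiscrepancy F d x P`, `v` the vector of `P`, where `logDiscrepancy F d x P` is the
one of the product of the projective spaces with the boundary `∑ i, (F i = 0)`: the order of the
logarithmic canonical forms along `P`, plus one. So
`canonicalCoefficient F d x ψ P = 1 - ψ v - logDiscrepancy F d x P` is the coefficient of `P` in the
pullback of `K_X + Δ`.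

**The divisors.** A toroidal Cartier divisor `L` on `X` is a sum of multiples `β t` of the hyperplane
classes of the factors and of prime divisors of the boundary of `X`: its coefficient at a prime
divisor `P` over `X` is `coefficient F d x c β P = c v + ∑ t, β t * h t`, where `h t` is minus the
minimal order at `P` of the homogeneous coordinates of the `t`-th factor, and `c` is linear on the
cones and integral on the lattice (`IsCartier`). `L` is `Ample` if for every toroidal Cartier divisor
`D` there is `k ≥ 1` such that `k L + D` is globally generated (of course this is so if `L` is ample).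
If all `n i ≥ 3` then every divisor on a smooth `X` is linearly equivalent to one of this form (by the
theorem of Lefschetz; this remark is not used and not proved here).

**The theorem.** Let `L j`, `j = 1, ..., M`, be ample toroidal Cartier divisors on `X`. If
`M ≥ n t + r` for all `t`, then `K_X + Δ + ∑ j, L j` is globally generated. Since
`n t + r ≤ N + 1`, this contains, for smooth `X` and `Δ = 0`, the statement of Fujita's conjecture:
`K_X + (dim X + 1) A` is globally generated for all ample (toroidal) divisors `A` on `X`; and
`K_X + m A` is already globally generated for `m ≥ max_t (n t) + r`, which in general is much smaller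
than `dim X + 1`. (Ample toroidal divisors on `X` are globally generated, by
`MP_5ee2d0_ag.NefCartierIsFree`, so that for smooth `X`, `Δ = 0` and `M = dim X + 1` one could also
use the regularity of Castelnuovo and Mumford; the proof here is direct.)

The sections of `K_X + Δ + L` are rational differential forms of the degree `N` (`IsFormSection`), and
a divisor is globally generated if for every prime divisor `P` over `X` it has a section which does
not vanish at `P` (so there is no base point on `X`: take the exceptional divisor of the blowing up
of a point).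
-/

set_option autoImplicit false

open FF MvPolynomial Pool.Agent.W602.GT

namespace Pool.Agent.Results.MP_9ff3e7_ag.FreenessOfToroidalModels

/-- The form `F` has no singular zeros: its partial derivatives have no common zero but `0`. -/
def Smooth {n : ℕ} (F : MvPolynomial (Fin (n + 1)) ℂ) : Prop :=
  ∀ x : Fin (n + 1) → ℂ, x ≠ 0 → ∃ l, eval x (pderiv l F) ≠ 0

section fans

variable {r R : ℕ}

/-- The multiplicities which satisfy the divisibility conditions. -/
def Admissible (m : Fin R → ℕ) (a : Fin R → Fin r → ℕ) (v : Fin r → ℕ) : Prop :=
  v ≠ 0 ∧ ∀ j, m j ∣ ∑ i, a j i * v i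

/-- The vector `v` is in the cone which is generated by the vectors in `σ`. -/
def InCone (σ : Finset (Fin r → ℕ)) (v : Fin r → ℕ) : Prop :=
  ∃ w : (Fin r → ℕ) → ℚ, (∀ s, 0 ≤ w s) ∧ ∀ k, (v k : ℚ) = ∑ s ∈ σ, w s * s k

/-- `fan` is a finite set of cones, each generated by admissible vectors which are a basis of the
whole space (`full`, `free`). The cones cover all admissible vectors, and two cones meet in the cone
which is generated by the common generators. -/
structure IsSimplicialFan (m : Fin R → ℕ) (a : Fin R → Fin r → ℕ)
    (fan : Finset (Finset (Fin r → ℕ))) : Prop where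
  adm : ∀ σ ∈ fan, ∀ s ∈ σ, Admissible m a s
  full : ∀ σ ∈ fan, ∀ f : Fin r → ℚ, ∃ q : (Fin r → ℕ) → ℚ, ∀ k, f k = ∑ s ∈ σ, q s * s k
  free : ∀ σ ∈ fan, ∀ q : (Fin r → ℕ) → ℚ, (∀ k, ∑ s ∈ σ, q s * s k = 0) → ∀ s ∈ σ, q s = 0
  cover : ∀ v, Admissible m a v → ∃ σ ∈ fan, InCone σ v
  meet : ∀ σ ∈ fan, ∀ τ ∈ fan, ∀ v, InCone σ v → InCone τ v → InCone (σ ∩ τ) v

/-- `K_X + Δ` is Cartier, for the boundary `Δ` with the coefficients `1 - ψ s` in `[0, 1]` at the
generators `s`: the function `ψ` is linear on the cones and integral at the points of the lattice. -/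
structure IsLogPair (m : Fin R → ℕ) (a : Fin R → Fin r → ℕ) (fan : Finset (Finset (Fin r → ℕ)))
    (ψ : (Fin r → ℕ) → ℚ) : Prop where
  zero : ψ 0 = 0
  linear : ∀ σ ∈ fan, ∃ u : Fin r → ℚ, ∀ v, Admissible m a v → InCone σ v → ψ v = ∑ k, u k * v k
  integral : ∀ v, Admissible m a v → ∃ z : ℤ, ψ v = z
  boundary : ∀ σ ∈ fan, ∀ s ∈ σ, 0 ≤ ψ s ∧ ψ s ≤ 1

/-- The toroidal divisor with the function `c` is Cartier: `c` is linear on the cones and integral at
the points of the lattice. -/
structure IsCartier (m : Fin R → ℕ) (a : Fin R → Fin r → ℕ) (fan : Finset (Finset (Fin r → ℕ)))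
    (c : (Fin r → ℕ) → ℚ) : Prop where
  zero : c 0 = 0
  linear : ∀ σ ∈ fan, ∃ u : Fin r → ℚ, ∀ v, Admissible m a v → InCone σ v → - c v = ∑ k, u k * v k
  integral : ∀ v, Admissible m a v → ∃ z : ℤ, c v = z

end fans

section coefficients

variable {r : ℕ} {n : Fin r → ℕ} {K : Type} [Field K] [Algebra ℂ K]

/-- The affine coordinates of the product of the projective spaces. -/
noncomputable def affine (x : ∀ i, Fin (n i + 1) → K) (b : (i : Fin r) × Fin (n i)) : K :=
  x b.1 b.2.succ / x b.1 0

/-- The minimal order at `P` of the homogeneous coordinates `y`. -/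
noncomputable def minimalOrder {n : ℕ} (y : Fin (n + 1) → K) (P : Place ℂ K) : ℤ :=
  Finset.univ.inf' Finset.univ_nonempty fun j => P.ord (y j)

/-- The multiplicities of the hypersurfaces `F i = 0` along the prime divisor `P`; the `x i j` are the
homogeneous coordinates of the `i`-th factor, which are divided by one of minimal order at `P`. -/
noncomputable def multiplicities (F : ∀ i, MvPolynomial (Fin (n i + 1)) ℂ) (d : Fin r → ℕ)
    (x : ∀ i, Fin (n i + 1) → K) (P : Place ℂ K) (i : Fin r) : ℕ :=
  (P.ord (aeval (x i) (F i)) - d i * minimalOrder (x i) P).toNat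

/-- The coefficient at the prime divisor `P` of the toroidal divisor with the function `c` of the
multiplicities and the degrees `β t`: it is `c v` plus `β t` times the coefficient at `P` of the
hyperplane class of the `t`-th factor, which is represented by the divisor with the coefficients
`- minimalOrder (x t) P` (its sections are the linear forms in the `x t j`). -/
noncomputable def coefficient (F : ∀ i, MvPolynomial (Fin (n i + 1)) ℂ) (d : Fin r → ℕ)
    (x : ∀ i, Fin (n i + 1) → K) (c : (Fin r → ℕ) → ℚ) (β : Fin r → ℤ) (P : Place ℂ K) : ℚ :=
  c (multiplicities F d x P) - ∑ t, (β t : ℚ) * minimalOrder (x t) P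

/-- The canonical form of the product of the projective spaces, evaluated at vector fields: the
product of the `x i 0 ^ (n i + 1)`, times the determinant of the derivatives of the affine
coordinates. -/
noncomputable def canonicalForm (x : ∀ i, Fin (n i + 1) → K)
    (D : ((i : Fin r) × Fin (n i)) → Derivation ℂ K K) : K :=
  (∏ i, x i 0 ^ (n i + 1)) * (Matrix.of fun b b' => D b (affine x b')).det

/-- The order of the canonical form along `P`: the minimal order of its values at vector fields which
are regular at `P`. -/
noncomputable def formOrder (x : ∀ i, Fin (n i + 1) → K) (P : Place ℂ K) : ℤ :=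
  sInf {k : ℤ | ∃ D : ((i : Fin r) × Fin (n i)) → Derivation ℂ K K, (∀ b, DerReg P (D b)) ∧
    canonicalForm x D ≠ 0 ∧ P.ord (canonicalForm x D) = k}

/-- The log discrepancy along `P` of the product of the projective spaces, with the boundary
`∑ i, (F i = 0)`: the order along `P` of the logarithmic canonical forms, which are obtained from the
canonical form by the division by the local equations of the hypersurfaces and by the powers
`n i + 1` of coordinates `x i j` of minimal order, plus one. -/
noncomputable def logDiscrepancy (F : ∀ i, MvPolynomial (Fin (n i + 1)) ℂ) (d : Fin r → ℕ)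
    (x : ∀ i, Fin (n i + 1) → K) (P : Place ℂ K) : ℤ :=
  formOrder x P + 1 - ∑ i, (multiplicities F d x P i : ℤ) -
    ∑ i, ((n i : ℤ) + 1) * minimalOrder (x i) P

/-- The coefficient of `P` in the pullback of `K_X + Δ`, for the pair with the function `ψ`: its log
discrepancy along `P` is `ψ v + logDiscrepancy F d x P`, `v` the vector of the multiplicities. -/
noncomputable def canonicalCoefficient (F : ∀ i, MvPolynomial (Fin (n i + 1)) ℂ) (d : Fin r → ℕ)
    (x : ∀ i, Fin (n i + 1) → K) (ψ : (Fin r → ℕ) → ℚ) (P : Place ℂ K) : ℚ :=
  1 - ψ (multiplicities F d x P) - logDiscrepancy F d x P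

end coefficients

section sections

variable {K : Type} [Field K] [Algebra ℂ K] (N : ℕ) (δ : Place ℂ K → ℚ)

/-- `f` is a section of the divisor with the coefficients `δ P`: its order at every prime divisor `P`
(every divisorial place `P` of `K`) is at least `- δ P`. -/
def IsSection (f : K) : Prop :=
  ∀ P : Place ℂ K, Divisorial N P → f = 0 ∨ - δ P ≤ P.ord f

/-- The divisor with the coefficients `δ P` is globally generated: for every prime divisor `P` it has
a section which does not vanish at `P`, that is, its order at `P` is the minimal one, `- δ P`. -/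
def GloballyGenerated : Prop :=
  ∀ P : Place ℂ K, Divisorial N P → ∃ f : K, f ≠ 0 ∧ IsSection N δ f ∧ (P.ord f : ℚ) ≤ - δ P

/-- `ω` is a section of `K_X + Δ + L`, a divisor with the coefficients `δ P` (the coefficients of
`K_X` are given by the log discrepancies): a rational differential form of the degree `N` (a function
of `N` rational vector fields which is multiplied by `det B` under a linear substitution `B`) whose
order on the vector fields which are regular at `P` is at least `- δ P`, for all prime divisors `P`
(all divisorial places `P` of `K`). -/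
def IsFormSection (ω : (Fin N → Derivation ℂ K K) → K) : Prop :=
  IsPluri 1 ω ∧ ∀ P : Place ℂ K, Divisorial N P → ∀ D : Fin N → Derivation ℂ K K,
    (∀ c, DerReg P (D c)) → ω D = 0 ∨ - δ P ≤ P.ord (ω D)

/-- The divisor `K_X + Δ + L` with the coefficients `δ P` is globally generated: for every prime
divisor `P` it has a section which does not vanish at `P`. -/
def AdjointGloballyGenerated : Prop :=
  ∀ P : Place ℂ K, Divisorial N P → ∃ ω, IsFormSection N δ ω ∧
    ∃ D, (∀ c, DerReg P (D c)) ∧ ω D ≠ 0 ∧ (P.ord (ω D) : ℚ) ≤ - δ P

end sections

/-- The divisor with the coefficients `δ P` is ample: for every toroidal Cartier divisor `D`, with the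
function `c` and the degrees `β`, there is `k ≥ 1` such that `k L + D` is globally generated. -/
def Ample {r R : ℕ} {n : Fin r → ℕ} {K : Type} [Field K] [Algebra ℂ K] (N : ℕ)
    (F : ∀ i, MvPolynomial (Fin (n i + 1)) ℂ) (d : Fin r → ℕ) (x : ∀ i, Fin (n i + 1) → K)
    (m : Fin R → ℕ) (a : Fin R → Fin r → ℕ) (fan : Finset (Finset (Fin r → ℕ)))
    (δ : Place ℂ K → ℚ) : Prop :=
  ∀ (c : (Fin r → ℕ) → ℚ) (β : Fin r → ℤ), IsCartier m a fan c →
    ∃ k : ℕ, 1 ≤ k ∧ GloballyGenerated N fun P => k * δ P + coefficient F d x c β P

/-- **Freeness of adjoint divisors.** Let `K` be the function field of an abelian cover `Y` of the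
product of the projective `n i`-spaces, `i = 1, ..., r`, which is branched along smooth hypersurfaces
`F i = 0` of the factors, `X` the simplicial toroidal modification of `Y` which is given by `fan`, and
`Δ` a toroidal boundary with coefficients in `[0, 1]`, given by `ψ`, such that `K_X + Δ` is Cartier.
Let `L j`, `j = 1, ..., M`, be ample toroidal Cartier divisors on `X`, with the functions `c j` and
the degrees `β j`, and `M ≥ n t + r` for all `t`. Then `K_X + Δ + ∑ j, L j` is globally generated. -/
theorem result (r N R M : ℕ) (n d : Fin r → ℕ) (hr : 1 ≤ r) (hn : ∀ i, 1 ≤ n i)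
    (hd : ∀ i, 1 ≤ d i) (hN : N = ∑ i, n i)
    (F : ∀ i, MvPolynomial (Fin (n i + 1)) ℂ) (hF : ∀ i, (F i).IsHomogeneous (d i))
    (hs : ∀ i, Smooth (F i)) (m : Fin R → ℕ) (hm : ∀ j, 1 ≤ m j) (a : Fin R → Fin r → ℕ)
    (hdiv : ∀ j i, m j ∣ a j i * d i)
    (K : Type) [Field K] [Algebra ℂ K] (x : ∀ i, Fin (n i + 1) → K) (hx0 : ∀ i, x i 0 ≠ 0)
    (hbas : IsTranscendenceBasis ℂ (affine x)) (z : Fin R → K)
    (hz : ∀ j, z j ^ m j = ∏ i, (aeval (x i) (F i) / x i 0 ^ d i) ^ a j i)
    (hgen : IntermediateField.adjoin ℂ (Set.range (affine x) ∪ Set.range z) = ⊤)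
    (fan : Finset (Finset (Fin r → ℕ))) (hfan : IsSimplicialFan m a fan)
    (ψ : (Fin r → ℕ) → ℚ) (hψ : IsLogPair m a fan ψ)
    (c : Fin M → (Fin r → ℕ) → ℚ) (β : Fin M → Fin r → ℤ) (hc : ∀ j, IsCartier m a fan (c j))
    (hample : ∀ j, Ample N F d x m a fan (coefficient F d x (c j) (β j)))
    (hM : ∀ t, n t + r ≤ M) :
    AdjointGloballyGenerated N fun P =>
      canonicalCoefficient F d x ψ P + ∑ j, coefficient F d x (c j) (β j) P := by
  classical
  have hcl := fun j => (hc j).linear
  choose! u hu using hcl
  have hψl := hψ.linear
  choose! w hw using hψl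
  refine Pool.Agent.Q57.FJ.main_adj (N := N) (u := u) (w := w) hr hn hN hd hF hs hx0 hbas hm hdiv hz
    hgen ⟨⟨hfan.adm, hfan.full, hfan.cover⟩, hfan.free, hfan.meet⟩ hψ.zero
    hw hψ.boundary hψ.integral (fun j => ⟨(hc j).zero, hu j, (hc j).integral⟩)
    (fun _ _ => rfl) (fun j c' u' β' hc' => ?_) hM
  exact hample j c' β' ⟨hc'.zero, fun σ hσ => ⟨u' σ, hc'.lin σ hσ⟩, hc'.int⟩

end Pool.Agent.Results.MP_9ff3e7_ag.FreenessOfToroidalModels
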