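import Pool.Agent.Q47.FJ.Main

/-!
# Fujita's conjectures for toric bundles

Let `X` be a compact complex manifold, and let `Y → X` be a toric bundle: a locally trivial bundle
whose fibre `F` is a smooth complete toric variety of dimension `n`, twisted by arbitrary line bundles
`c_i` on `X`, one for each ray of the fan of `F` (for example the projectivisation of a direct sum of
`n + 1` line bundles on `X`). The structure group is the torus, and `dim Y = dim X + n`. We consider
the adjoint line bundles `K_Y + L_1 + ... + L_k`, where `L_1, ..., L_k` are ample line bundles on `Y`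
which may be different. (Fujita's conjectures are about the case `L_1 = ... = L_k = A`,
`k = dim Y + 1` or `k = dim Y + 2`.)

Part (1) of the theorem reduces the two conjectures to the base. Let `k ≥ n + 1`. If for all ample line
bundles `A_1, ..., A_k` on `X` the line bundle `K_X + A_1 + ... + A_k` is globally generated, then for
all ample line bundles `L_1, ..., L_k` on `Y` the line bundle `K_Y + L_1 + ... + L_k` is globally
generated. Let `k ≥ n + 2`. If for all ample line bundles `A_1, ..., A_k` on `X` the line bundle
`K_X + A_1 + ... + A_k` is very ample, then for all ample line bundles `L_1, ..., L_k` on `Y` the line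
bundle `K_Y + L_1 + ... + L_k` is very ample. So if the conjectures (for sums of ample line bundles)
hold for `X` then they hold for all toric bundles over `X`, of any fibre dimension. Instead of all line
bundles on `X` one may take those in a subgroup of `Pic(X)` which contains the `c_i`.

Part (2) is unconditional: if `X` is a complex torus (for example an abelian variety) of any dimension,
then for all ample line bundles `L_1, ..., L_k` on `Y` the line bundle `K_Y + L_1 + ... + L_k` is
globally generated if `k ≥ max(n + 1, 2)` and very ample if `k ≥ max(n + 2, 3)`. In particular both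
conjectures of Fujita hold for `Y` (with `A` ample, `K_Y + k A` is globally generated for
`k ≥ max(n + 1, 2)`, where `n + 1 ≤ dim Y + 1`, and very ample for `k ≥ max(n + 2, 3)`). The bounds
do not depend on `dim X`, and they are optimal for `F = ℙ^n`.

The proof of (1). The sections of a line bundle on `Y` are polynomials in the Cox coordinates; the
coefficient of the monomial `x^α` is a section of a line bundle `N_α` on `X`. If `L` is ample and `σ`
is a maximal cone, then there is exactly one monomial `x^β` of the class of `L` on the fibres with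
`β = 0` on `σ`; then `N_β(L)` is the restriction of `L` to the section of `Y → X` given by `σ`, hence
ample; the `β_i`, `i ∉ σ`, are positive, since `L` separates tangent vectors; and for `l ∈ σ` and the
dual vector `m_l` the monomial `x^{β + m_l}` is polynomial and `N_{β + m_l}(L)` is ample, since it is a
rational convex combination of the ample line bundles of `σ` and of the adjacent cone. Let `k ≥ n + 1`.
Choose for each of the (at most `n`) rays `l ∈ σ` another `L_j` and replace `β(L_j)` by `β(L_j) + m_l`.
The sum `B` of the `k` exponents is `1` on `σ` and positive off `σ`, and `x^{B - 1}` is a monomial of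
`K_Y + ∑ L_j` with `N_{B - 1} = K_X + ∑ (ample)`. So there is a section which does not vanish at
a given point over the cone `σ`. If `k ≥ n + 2` then two `β(L_j)` are not replaced, so that `B - 1` is
positive off `σ`, and one may add one more `m_l`. Such sections separate the points and the tangent
vectors.

The proof of (2). On a complex torus the sections `s_1(v + a_1) s_2(v + a_2)` and
`s_1(v + a_1) s_2(v + a_2) s_3(v + a_3)`, `∑ H_i(a_i, ·) = 0`, of products of ample line bundles with
the Chern forms `H_i` separate the points and the tangent vectors (theorem of Lefschetz; all this is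
proved here, including the existence of theta functions for all positive line bundles).

Definitions. `Atlas`, `LB`, `GG`, `VA`, `IsAmple` (line bundles on complex manifolds), `IsSecY`,
`GGY`, `VAY`, `AmpleY` (line bundles `O_Y(d; M)` on toric bundles) are in `Pool.Agent.Q47.FJ.Defs`;
`IsCanonical` (`K_X`), `IsCanonicalY` (`K_Y = O_Y(-1, ..., -1; N)`), `torus` and `IsChern` are in
`Pool.Agent.Q47.FJ.DefsT`; `IsSmoothFan` is in `Pool.Agent.Q47.TB.Defs`; `IsHermitian` is in
`Pool.Agent.W594.SYZ.TQDefs`.
-/

set_option autoImplicit false

namespace Pool.Agent.Results.MP_9ff3e7_ag.ToricBundles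

open Q47.TB Q47.FJ

/-- For all ample line bundles `A_1, ..., A_k` in `Pic` on `X`, `K_X + A_1 + ... + A_k` is globally
generated. -/
def AdjointsAreGG {E I K : Type} [NormedAddCommGroup E] [NormedSpace ℂ E] (X : Atlas E I K)
    (Pic : Subgroup (LB X)) (k : ℕ) : Prop :=
  ∀ κ : LB X, IsCanonical κ → ∀ A : Fin k → LB X, (∀ j, A j ∈ Pic ∧ IsAmple (A j)) →
    GG (κ * ∏ j, A j)

/-- For all ample line bundles `A_1, ..., A_k` in `Pic` on `X`, `K_X + A_1 + ... + A_k` is very
ample. -/
def AdjointsAreVA {E I K : Type} [NormedAddCommGroup E] [NormedSpace ℂ E] (X : Atlas E I K)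
    (Pic : Subgroup (LB X)) (k : ℕ) : Prop :=
  ∀ κ : LB X, IsCanonical κ → ∀ A : Fin k → LB X, (∀ j, A j ∈ Pic ∧ IsAmple (A j)) →
    VA (κ * ∏ j, A j)

/-- Let `u`, `S` be a smooth complete fan of dimension `n`.

(1) Let `Y → X` be the toric bundle with this fan given by the line bundles `c_i` on the complex
manifold `X`, let `K_Y = O_Y(-1, ..., -1; N)`, let `Pic` be a subgroup of the group of the line bundles
on `X` which contains the `c_i`, and let `L_j = O_Y(d_j; M_j)`, `j = 1, ..., k`, be ample, `M_j ∈ Pic`.
(a) Let `k ≥ n + 1`. If all adjoint line bundles `K_X + A_1 + ... + A_k`, `A_j ∈ Pic` ample, are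
globally generated, then `K_Y + L_1 + ... + L_k` is globally generated.
(b) Let `k ≥ n + 2`. If all adjoint line bundles `K_X + A_1 + ... + A_k`, `A_j ∈ Pic` ample, are
very ample, then `K_Y + L_1 + ... + L_k` is very ample.

(2) Let `Y → V / Λ` be the toric bundle with this fan given by the line bundles `c_i` on the complex
torus `V / Λ`, let `K_Y = O_Y(-1, ..., -1; N)`, and let `L_j = O_Y(d_j; M_j)`, `j = 1, ..., k`, be
ample. (`c_i` and `M_j` have Chern forms.) Then `K_Y + L_1 + ... + L_k` is globally generated if
`k ≥ max(n + 1, 2)`, and very ample if `k ≥ max(n + 2, 3)`. -/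
theorem result {ι : Type} [Fintype ι] {n : ℕ} {u : ι → Fin n → ℤ} {S : Set (Set ι)}
    (hS : IsSmoothFan u S) :
    (∀ {E I K : Type} [NormedAddCommGroup E] [NormedSpace ℂ E] [FiniteDimensional ℂ E]
      (X : Atlas E I K) (Pic : Subgroup (LB X)) (c : ι → LB X), (∀ i, c i ∈ Pic) →
      ∀ N : LB X, IsCanonicalY c N →
      ∀ (k : ℕ) (d : Fin k → ι → ℤ) (M : Fin k → LB X), (∀ j, M j ∈ Pic) →
      (∀ j, AmpleY u S c (d j) (M j)) →
        (n + 1 ≤ k → AdjointsAreGG X Pic k →
          GGY u S c (fun i => ∑ j, d j i - 1) (N * ∏ j, M j)) ∧
        (n + 2 ≤ k → AdjointsAreVA X Pic k →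
          VAY u S c (fun i => ∑ j, d j i - 1) (N * ∏ j, M j))) ∧
    (∀ {V : Type} [NormedAddCommGroup V] [NormedSpace ℂ V] [FiniteDimensional ℂ V]
      (Λ : AddSubgroup V), DiscreteTopology Λ → Submodule.span ℝ (Λ : Set V) = ⊤ →
      ∀ c : ι → LB (torus Λ), (∀ i, ∃ H, IsChern (c i) H) →
      ∀ N : LB (torus Λ), IsCanonicalY c N →
      ∀ (k : ℕ) (d : Fin k → ι → ℤ) (M : Fin k → LB (torus Λ)), (∀ j, ∃ H, IsChern (M j) H) →
      (∀ j, AmpleY u S c (d j) (M j)) →
        (n + 1 ≤ k → 2 ≤ k → GGY u S c (fun i => ∑ j, d j i - 1) (N * ∏ j, M j)) ∧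
        (n + 2 ≤ k → 3 ≤ k → VAY u S c (fun i => ∑ j, d j i - 1) (N * ∏ j, M j))) := by
  refine ⟨?_, ?_⟩
  · intro E I K _ _ _ X Pic c hc N hN k d M hM h
    exact ⟨fun hk hX => gg_red hS Pic hc hN hk hM h hX,
      fun hk hX => va_red hS Pic hc hN hk hM h hX⟩
  · intro V _ _ _ Λ hd hs c hc N hN k d M hM h
    exact ⟨fun hk hk2 => gg_main hd hs hS hc hN hk hk2 hM h,
      fun hk hk3 => va_main hd hs hS hc hN hk hk3 hM h⟩

end Pool.Agent.Results.MP_9ff3e7_ag.ToricBundles
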